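import Pool.Agent.H82.RES.Sti

/-!
# No alive velocity at a record of full rate

`res_rec`: the sub-box without look-ahead (`box_rec`), the mutual information (`stage_ipc`) and the chain
of the stages (`chain_recd`) at the moved record, against the alive velocity (`alv_con`).
-/

set_option autoImplicit false

namespace Pool.PN18

open Finset Real MvPolynomial
open Pool.Agent.H49.Ent Pool.Agent.H32.Dense Pool.STK Pool.KA Pool.KSAT Pool.K2S Pool.PB Pool.GEN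
open Pool.S6C Pool.RCD Pool.LA91 Pool.OWN68 Pool.AJW Pool.AJX Pool.CHT Pool.PKG Pool.ALT
open Pool.CR99 (BlX)
open Pool.FLN19 (AlvQ)

/-- **TASK B3. No alive velocity at a record of full rate**, the slope of the place smaller. -/
theorem res_rec {r D Dg Ms : ℕ} (hr : 1 ≤ r) {a b h : ℝ} (ha1 : 1 < a) (hab : a < b) (hh : 0 < h)
    (hh1 : h ≤ 1) {x : ℕ → ℝ} {τ : ℕ → ℕ} (HS : StgM a b (max D D * max 1 D) Ms x τ) {dd c' : ℝ}
    (hdd : 0 < dd) (hc' : dd < c') :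
    ∃ (δ : ℕ → ℝ) (γ₁ : ℝ), (∀ k < Ms, 0 < δ k) ∧ 0 < γ₁ ∧
    ∀ {S : PCl (r + 2)} {al : ℝ} {g₀ : ℝ → ℝ} {P : List (Fin (r + 2)) × Fin (r + 2) → ℝ → ℝ → ℝ}
      {θ : ℝ} {P₂ : ℕ → List (Fin (r + 2)) × Fin (r + 2) → ℝ → ℝ → ℝ} {θ₂ Eb e₂ : ℕ → ℝ}
      {c : ℕ → Fin (r + 2)} {Pt : ℝ → ℝ → ℝ} {rt : ℝ → ℝ} {K₀ g : ℝ} {L T : ℕ → ℝ → ℝ → ℝ}
      {Sl : ℕ → ℝ} {κ : ℕ → Kg} {G : Set ℝ} {S₀ N : ℕ} {A V : ℕ → ℝ} {S₂ N' : ℕ} {V' : ℕ → ℝ}
      {K' ε q t : ℝ} {S₁ : PCl (r + 2)} (_ : S₁.Ne)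
      (_ : ∀ (τ : ℝ) (J : ℕ) (F : Fam (r + 2) J) (A : F.Ω → Prop), S₁.St τ J F A → S.St τ J F A)
      (_ : RecG S₁ al g₀ P θ P₂ θ₂ Eb e₂ c Pt rt h K₀ g L T Sl κ G S₀ N A V S₂ N' V' K' ε q t)
      (_ : ∀ l < r, κ l = .one) (_ : Sl r = a) (_ : Sl (r + 1) = b)
      (_ : ∀ w ∈ G, ∃ rd : ℕ → ℝ, (∀ l < r + 1, 0 ≤ rd l) ∧
        Chn S c 0 (r + 1) w w (L r w w) (fun l => L l w w) rd) {e₀ ρ₀ π₀ μ : ℝ} (_ : 0 < μ)
      (_ : ρ₀ + μ ≤ 1) (_ : ∀ w ∈ G, |w - g| ≤ μ → AltC S c r L e₀ ρ₀ π₀ μ w)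
      (_ : ∀ x : ℝ, |x| ≤ K' → |t + x * q - g| ≤ μ)
      (_ : LabR r D S₁ c L e₀ μ q t N' V') {el dl : ℝ} {k₀ : ℕ}
      (_ : ∀ S' : PCl (r + 2), S'.Ne → SubC S' S → ∀ w₀ : ℝ, 0 < w₀ → w₀ < g →
        AltE S' ((range (r + 1)).image c) (c (r + 1)) (max D D * max 1 D) e₀ ρ₀ π₀ w₀ →
        ∃ φ : ℝ, b * Real.log 2 - dl ≤ φ ∧ ∀ k ≥ k₀, AltAt S ((range (r + 1)).image c)
          ((range r).image c) (c (r + 1)) (max D D * max 1 D) e₀ ρ₀ π₀ (fun w => L (r + 1) w w) g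
          φ el k)
      -- the numbers
      {R₁ V₀ lm ε₁ X φ kf ℓ e' KB : ℝ} {Tn Nf n Nw : ℕ}
      (_ : ResN r (max D D * max 1 D) a b K₀ R₁ V₀ Ms τ (stR a x (fun i => (τ i : ℝ))) δ γ₁ Tn Nf
        n Nw lm ε₁ X φ kf ℓ e' ε KB K' el dl)
      (_ : (K₀ + 2 * R₁ + 5 + τ 0) * q ≤ (1 / 2) ^ k₀) (_ : (2 * (b * τ 0) + 4) * q ≤ μ / 4)
      -- the closed slope
      {ρ κ' : ℝ} (_ : Dg ≤ D) (_ : 0 < κ') (_ : ρ ≤ e' / 32)
      (_ : BlX S₁ c r Dg Dg (t + V₀ * q)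
        (L (r + 1) (t + V₀ * q) (t + V₀ * q) - ρ * q) 1 (fun _ => t - R₁ * q)
        (fun _ => L (r + 1) (t - R₁ * q) (t - R₁ * q) - ρ * q)
        (fun _ => L r (t - R₁ * q) (t - R₁ * q) -
          L (r + 1) (t - R₁ * q) (t - R₁ * q) + ρ * q) κ')
      -- the windows
      (_ : ∃ j < N', V' j = V₀) (_ : ∃ j < N', V' j = 0)
      (_ : ∃ j < N', V' j = -(K₀ + 2 * R₁ + 5))
      (_ : ∀ k ≤ 2 * ((Nf * Tn) ^ n * Nw), ∃ j < N', V' j = bxv R₁ ((Nf * Tn) ^ n * Nw) k)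
      (_ : ∀ z ≤ (Nf * Tn) ^ n, ∀ k ≤ r, ∃ j < N',
        V' j = jfV r (bxv R₁ ((Nf * Tn) ^ n) z) X k)
      -- the velocity is alive
      (_ : ∀ S' : PCl (r + 2), (∀ (τ : ℝ) (J : ℕ) (F : Fam (r + 2) J) (A : F.Ω → Prop),
        S'.St τ J F A → S₁.St τ J F A) → ∀ lam y t' : ℝ, lm ≤ lam → lam ≤ 1 → -(R₁ + 2) ≤ y →
        y + lam ≤ -R₁ → t' = t + y * q → t' ∈ G →
        (∃ η : ℝ, RNum S' (fun J F => ptr F J) (vg t') η) → ∀ Nv : ℕ → ℕ → ℝ,
        (∀ l < r, ∀ j ≤ 1, Nv l j = L l t' t' + (3 ^ r * X + 1) * q - (j : ℕ) * t') →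
        ∃ e₃ : ℝ, 0 < e₃ ∧ AlvQ S' t' (fun (_ : ℕ) (F : Fam (r + 2) _) => F.T)
          (qJets (r + 2) c 0 r 1 (fun _ _ => t') (fun l _ => L l t' t') Nv)
          (qJet (r + 2) ((range r).image c) (c r) 1 t' (L r t' t')
            (L r t' t' + (a - 1) * (lam * q) - t')) e₃ (c' * (lam * q))), False := by
  classical
  obtain ⟨δ, N₀, γ₁, hδ, hN₀, hγ₁, HC⟩ := chain_recd (r := r) (D := D) (M := Ms) hr ha1 hab hh hh1
    HS hdd
  refine ⟨δ, γ₁, hδ, hγ₁, ?_⟩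
  intro S al g₀ P θ P₂ θ₂ Eb e₂ c Pt rt K₀ g L T Sl κ G S₀ N A V S₂ N' V' K' ε q t S₁ hne₁ hs₁ R
    hκ hSa hSb hcu e₀ ρ₀ π₀ μ hμ hρ₀ halt hnear hlab el dl k₀ hful R₁ V₀ lm ε₁ X φ kf ℓ e' KB Tn
    Nf n Nw HN hk₀ hqμ ρ κ' hDg hκ' hρe hX wV w0 wK wF wJ HA
  have hq := R.q0
  have ht0 := R.t0
  have ht1 := R.t1
  have ha0 : 0 < a := by linarith only [ha1]
  have hb0 : 0 < b := by linarith only [ha0, hab]
  have hr0 : (0 : ℝ) ≤ r := Nat.cast_nonneg r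
  have hNf : 0 < Nf := HN.N1
  have hTn : 0 < Tn := HN.T1
  have hNw : 0 < Nw := HN.w1
  have hNfr : (0 : ℝ) < Nf := by exact_mod_cast hNf
  have hTnr : (0 : ℝ) < Tn := by exact_mod_cast hTn
  have hM0 : 0 < Nf * Tn := Nat.mul_pos hNf hTn
  have hΛ0 : 0 < (Nf * Tn) ^ n := pow_pos hM0 n
  have hΛw : 0 < (Nf * Tn) ^ n * Nw := Nat.mul_pos hΛ0 hNw
  have hΛr : (0 : ℝ) < (((Nf * Tn) ^ n * Nw : ℕ) : ℝ) := by exact_mod_cast hΛw
  -- the sizes
  have hMn1 : (1 : ℝ) ≤ ((Nf * Tn : ℕ) : ℝ) ^ n := one_le_pow₀ (by exact_mod_cast hM0)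
  have hT1 : (1 : ℝ) ≤ Tn := by exact_mod_cast hTn
  have hlm0 := HN.l0
  have hlmM : lm * ((Nf * Tn : ℕ) : ℝ) ^ n ≤ 1 := by
    have h1 := HN.lE
    have h2 : lm * (((Nf * Tn : ℕ) : ℝ) ^ n * 1) ≤ lm * (((Nf * Tn : ℕ) : ℝ) ^ n * Tn) :=
      mul_le_mul_of_nonneg_left (mul_le_mul_of_nonneg_left hT1 (by linarith only [hMn1])) hlm0.le
    linarith only [h1, h2]
  have hlm1 : lm ≤ 1 := by
    have h2 : lm * 1 ≤ lm * ((Nf * Tn : ℕ) : ℝ) ^ n := mul_le_mul_of_nonneg_left hMn1 hlm0.le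
    linarith only [hlmM, h2]
  have hφ0 := HN.f0
  have he'0 := HN.e0
  have hε := HN.g0
  have hφl := HN.f1
  have heφ := HN.e1
  have hεe := HN.g1
  have hφ8 : φ ≤ 1 / 8 := by linarith only [hφl, hlm1]
  have he128 : e' ≤ 1 / 128 := by linarith only [heφ, hφ8]
  have hR₁ := HN.R0
  have hV₀ := HN.V0
  have hK₀ := HN.K0
  have hτ1 : (1 : ℝ) ≤ τ 0 := by
    have h1 := (HS.pos 0 (Nat.zero_le _)).2.1
    exact_mod_cast h1
  have hbτ : 0 < b * τ 0 := mul_pos hb0 (by linarith only [hτ1])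
  have hbτ2 : 0 < b * (b * τ 0) := mul_pos hb0 hbτ
  have haτ : 0 < a * τ 0 := mul_pos ha0 (by linarith only [hτ1])
  have haτ2 : 0 < a * (a * τ 0) := mul_pos ha0 haτ
  have hbV : 0 ≤ b * -V₀ := mul_nonneg hb0.le (by linarith only [hV₀, hR₁])
  have hX5 := HN.X5
  have hX0 : 0 < X := by linarith only [hX5, hbV, hbτ, hbτ2, hτ1]
  have h3X : 0 < 3 ^ r * X := by positivity
  have hbR : 0 ≤ (b + 1) * (R₁ + 2) := by
    have h1 : 0 ≤ R₁ + 2 := by linarith only [hR₁]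
    have h2 : 0 ≤ b + 1 := by linarith only [hb0]
    exact mul_nonneg h2 h1
  have hR0 : 0 ≤ stR a x (fun i => (τ i : ℝ)) 0 := by
    rcases Nat.eq_zero_or_pos Ms with h0 | h0
    · exfalso
      have h1 := HS.fin
      rw [h0, HS.x0] at h1
      have h2 : (1 - a) * (τ 0 : ℝ) ≤ 0 :=
        mul_nonpos_of_nonpos_of_nonneg (by linarith only [ha1]) (by linarith only [hτ1])
      linarith only [h1, h2, ha0]
    · have h1 := HS.xs 0 h0
      rw [HS.x0] at h1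
      unfold stR
      exact div_nonneg (mul_nonneg (by linarith only [h1]) (Nat.cast_nonneg _)) ha0.le
  -- the sub-box
  obtain ⟨S', hne', hs', Ψb, d, pa₁, pa₂, hΨs, hΨl, hex, hRN, s, hs, k, hk, HB⟩ :=
    box_rec (D := D) (Dg := Dg) hr R hκ hSa hSb ha1 hab hR₁ hε
      (fun w hw => by
        obtain ⟨rd, h1, h2⟩ := hcu w hw
        exact ⟨rd, h1, h2.sub hs₁⟩) hμ hρ₀ (fun w h1 h2 => altC_sub hs₁ (halt w h1 h2)) hnear hlab
      hV₀ wV HN.K6 hDg hκ' hX HN.M2 HN.w1 wF w0 (X := X) (φ := φ) (kf := kf) (ℓ := ℓ) (e' := e')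
      wJ HN.X3 HN.X2 HN.k1
      (by linarith only [HN.m1, hτ1]) (by linarith only [HN.K1, HN.K5, hbR])
      (by linarith only [HN.K2, HN.K5, hbR, hτ1, hb0, hR₁, show (b + 1) * (R₁ + 2) =
        b * (R₁ + 2) + (R₁ + 2) by ring, mul_nonneg hb0.le (show 0 ≤ R₁ + 2 by linarith only [hR₁])])
      hφ0 hφ8 (by linarith only [hεe, heφ, hφ0, he'0]) he'0 heφ
      (by linarith only [HN.w2, hεe, he'0]) hρe
      (by
        have h1 : e' * q ≤ (2 * (b * τ 0) + 4) * q :=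
          mul_le_mul_of_nonneg_right (by linarith only [he128, hbτ]) hq.le
        linarith only [h1, hqμ])
      (ℓ₁ := a * stR a x (fun i => (τ i : ℝ)) 0 / Tn)
      (ℓ₂ := b * stR a x (fun i => (τ i : ℝ)) 0 / Tn) (ε₁ := ε₁) (by positivity) (by positivity)
      HN.E0 (by linarith only [HN.X4, hεe, he128, hφ8, he'0]) (by linarith only [hX5, hbτ, hbτ2, hτ1])
      (by
        have h1 : e' * ((Nf * Tn : ℕ) : ℝ) ^ n ≤ 1 / 128 := by
          have h2 : e' ≤ lm / 128 := by linarith only [heφ, hφl]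
          have h3 := mul_le_mul_of_nonneg_right h2 (show 0 ≤ ((Nf * Tn : ℕ) : ℝ) ^ n by positivity)
          linarith only [h3, hlmM]
        have h2 : ε * ((Nf * Tn : ℕ) : ℝ) ^ n ≤ e' * ((Nf * Tn : ℕ) : ℝ) ^ n :=
          mul_le_mul_of_nonneg_right (by linarith only [hεe, he'0, hε]) (by positivity)
        linarith only [h1, h2]) HN.n3
  have R' := R.sub hne' hs'
  -- the scale
  obtain ⟨lam, hlamE⟩ : ∃ lam : ℝ, lam = 1 / (((Nf * Tn : ℕ) : ℝ) ^ s * Tn) := ⟨_, rfl⟩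
  have hMs : (1 : ℝ) ≤ ((Nf * Tn : ℕ) : ℝ) ^ s := one_le_pow₀ (by exact_mod_cast hM0)
  have hMT : (1 : ℝ) ≤ ((Nf * Tn : ℕ) : ℝ) ^ s * Tn := by nlinarith only [hMs, hT1]
  have hlam0 : 0 < lam := by rw [hlamE]; positivity
  have hlam1 : lam ≤ 1 := by
    rw [hlamE, div_le_one (by positivity)]
    exact hMT
  have hlT : lam * Tn ≤ 1 := by
    rw [hlamE, div_mul_eq_mul_div, one_mul, div_le_one (by positivity)]
    exact le_mul_of_one_le_left hTnr.le hMs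
  have hlml : lm ≤ lam := by
    rw [hlamE, le_div_iff₀ (by positivity)]
    refine le_trans ?_ HN.lE
    refine mul_le_mul_of_nonneg_left ?_ hlm0.le
    refine mul_le_mul_of_nonneg_right ?_ hTnr.le
    exact pow_le_pow_right₀ (by exact_mod_cast hM0) hs.le
  have hlq : 0 < lam * q := mul_pos hlam0 hq
  have hlq1 : lam * q ≤ q := mul_le_of_le_one_left hq.le hlam1
  have hlmq : lm * q ≤ lam * q := mul_le_mul_of_nonneg_right hlml hq.le
  -- the points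
  obtain ⟨u, hu⟩ : ∃ u, u = (Nf * Tn) ^ (n - s - 1) := ⟨_, rfl⟩
  obtain ⟨l₀, hl₀⟩ : ∃ l₀, l₀ = k * (Nf * Tn) ^ (n - s) := ⟨_, rfl⟩
  obtain ⟨y₀, hy₀⟩ : ∃ y₀, y₀ = bxv R₁ ((Nf * Tn) ^ n) l₀ := ⟨_, rfl⟩
  have hpt : ∀ z : ℕ, bxv R₁ ((Nf * Tn) ^ n) (l₀ + z * Nf * u) = y₀ + z * lam := fun z => by
    rw [hu, bx_lin hNf hTn hs l₀ (z * Nf), ← hy₀, ← hlamE]
    push_cast
    field_simp
  have hτT : τ 0 ≤ Tn := HN.T0
  have hple : ∀ z ≤ τ 0, l₀ + z * Nf * u ≤ (Nf * Tn) ^ n := fun z hz => by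
    rw [hl₀, hu]
    refine bx_le hM0 hs hk ?_
    rw [Nat.mul_comm Nf Tn]
    exact Nat.mul_le_mul_right _ (hz.trans hτT)
  obtain ⟨x₀, hx₀⟩ : ∃ x₀, x₀ = l₀ + τ 0 * Nf * u := ⟨_, rfl⟩
  have hx₀le : x₀ ≤ (Nf * Tn) ^ n := by rw [hx₀]; exact hple _ le_rfl
  obtain ⟨y, hy⟩ : ∃ y, y = bxv R₁ ((Nf * Tn) ^ n) x₀ := ⟨_, rfl⟩
  have hy' : y = y₀ + τ 0 * lam := by rw [hy, hx₀, hpt]
  have hy₀b : -(R₁ + 2) ≤ y₀ := by
    have h1 := (bxv_mem (R₁ := R₁) hΛ0 (hple 0 (Nat.zero_le _))).1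
    rw [hpt] at h1
    push_cast at h1
    linarith only [h1]
  have hyb := bxv_mem (R₁ := R₁) hΛ0 hx₀le
  rw [← hy] at hyb
  have hττ : ∀ j ≤ Ms, (τ j : ℝ) ≤ τ 0 := fun j hj => by exact_mod_cast HS.mono j hj
  have hpz : ∀ j ≤ Ms, ∃ z ≤ (Nf * Tn) ^ n, y + lam * (-(τ j : ℝ)) = bxv R₁ ((Nf * Tn) ^ n) z :=
    fun j hj => by
    refine ⟨l₀ + (τ 0 - τ j) * Nf * u, hple _ (Nat.sub_le _ _), ?_⟩
    rw [hpt, hy', Nat.cast_sub (HS.mono j hj)]
    ring
  -- the windows of the points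
  have hfin : ∀ z ≤ (Nf * Tn) ^ n, ∃ j < N', V' j = bxv R₁ ((Nf * Tn) ^ n) z := fun z hz => by
    obtain ⟨j, hj, e⟩ := wF (z * Nw) ((Nat.mul_le_mul_right _ hz).trans
      (Nat.le_mul_of_pos_left _ (by norm_num)))
    exact ⟨j, hj, e.trans (bxv_fine hNw)⟩
  have hmemG : ∀ w : ℝ, (∃ j < N', V' j = w) → t + w * q ∈ G := fun w ⟨j, hj, e⟩ => by
    rw [← e]
    exact R.memG.2 j hj
  have htG' : t + y * q ∈ G := hmemG y (by rw [hy]; exact hfin x₀ hx₀le)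
  have hch : ChG S' c (r + 1) (fun l x => L l x x) G := Pool.LA91.ChG.mk fun w hw => by
    obtain ⟨rd, h1, h2⟩ := hcu w hw
    exact ⟨_, rd, h1, h2.sub fun τ J F A h => hs₁ τ J F A (hs' τ J F A h)⟩
  -- the moved record
  have hKB5 := HN.K5
  have hKB : 0 < KB := by linarith only [HN.K2, h3X, hτ1]
  obtain ⟨K₂, hK₂⟩ : ∃ K₂ : ℝ, K₂ = (y + K₀ + 2 * R₁ + 5) / lam - 1 := ⟨_, rfl⟩
  have hK₂l : K₂ * lam = y + K₀ + 2 * R₁ + 5 - lam := by
    rw [hK₂]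
    field_simp
  have hK₂0 : 0 < K₂ := by
    have h1 : 0 < K₂ * lam := by
      rw [hK₂l]
      linarith only [hyb.1, hK₀, hR₁, hlam1]
    exact pos_of_mul_pos_left h1 hlam0.le
  have hyabs : |y| ≤ R₁ + 2 := by
    rw [abs_le]
    constructor <;> linarith only [hyb.1, hyb.2, hR₁]
  have hbR2 : (b + 1) * (R₁ + 2) = b * (R₁ + 2) + (R₁ + 2) := by ring
  have hbR3 : 0 ≤ b * (R₁ + 2) := mul_nonneg hb0.le (by linarith only [hR₁])
  have Rm : RecG S' al g₀ P θ P₂ θ₂ Eb e₂ c Pt rt h K₂ g L T Sl κ G S₀ N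
      (fun k => (A k - y) / lam) (fun k => (V k - y) / lam) S₂ N' (fun k => (V' k - y) / lam)
      (KB / lam) (2 * ε / lam) (lam * q) (t + y * q) := by
    refine R'.mvs (by omega) hlam0 (by positivity) ?_ ?_ ?_ ?_
    · rw [div_mul_cancel₀ _ hlam0.ne']
      linarith only [hyabs, hKB5, hbR2, hbR3]
    · rw [hK₂l]
      have h1 := (abs_le.1 hyabs).1
      have h2 : |y| = -y := abs_of_nonpos (by linarith only [hyb.2, hR₁])
      rw [h2]
      linarith only [hyb.1, hlam1]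
    · rw [div_mul_cancel₀ _ hlam0.ne']
    · rw [div_mul_cancel₀ _ hlam0.ne']
      show KB + |Sl (r + 1)| * |y| + ε ≤ K'
      rw [hSb, abs_of_pos hb0]
      have h1 := mul_le_mul_of_nonneg_left hyabs hb0.le
      linarith only [h1, hKB5, hbR2, hR₁, hεe, he128, hε]
  -- the windows of the moved record
  have mw0 : ∃ j < N', (fun k => (V' k - y) / lam) j = 0 := win_mv hlam0 (by
    rw [mul_zero, add_zero, hy]
    exact hfin x₀ hx₀le)
  have mwτ : ∀ j ≤ Ms, ∃ i < N', (fun k => (V' k - y) / lam) i = -(τ j : ℝ) := fun j hj =>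
    win_mv hlam0 (by
      obtain ⟨z, hz, e⟩ := hpz j hj
      rw [e]
      exact hfin z hz)
  have mwK : ∃ j < N', (fun k => (V' k - y) / lam) j = -(K₂ + 1) := win_mv hlam0 (by
    have e : y + lam * -(K₂ + 1) = -(K₀ + 2 * R₁ + 5) := by linarith only [hK₂l]
    rw [e]
    exact wK)
  have mwJ : ∀ j ≤ Ms, ∀ i ≤ r, ∃ k < N', (fun k => (V' k - y) / lam) k =
      jfV r (-(τ j : ℝ)) (X / lam) i := fun j hj i hi => win_mv hlam0 (by
    obtain ⟨z, hz, e⟩ := hpz j hj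
    rw [jfV_sc r hlam0, e]
    exact wJ z hz i hi)
  -- products
  have hel : e' / lam * (lam * q) = e' * q := by field_simp
  have hφl' : φ / lam * (lam * q) = φ * q := by field_simp
  have hXl : X / lam * (lam * q) = X * q := by field_simp
  have hφq : 0 < φ * q := mul_pos hφ0 hq
  have heq : 0 < e' * q := mul_pos he'0 hq
  have hεq : 0 < ε * q := mul_pos hε hq
  have q1 : 8 * (φ * q) ≤ lam * q := by
    have h1 := mul_le_mul_of_nonneg_right (hφl.trans hlml) hq.le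
    linarith only [h1]
  have q2 : 16 * (e' * q) ≤ φ * q := by
    have h1 := mul_le_mul_of_nonneg_right heφ hq.le
    linarith only [h1]
  have q3 : 256 * (ε * q) ≤ e' * q := by
    have h1 := mul_le_mul_of_nonneg_right hεe hq.le
    linarith only [h1]
  have dv : ∀ A B C : ℝ, 0 ≤ A → A + B ≤ C → A + B / lam ≤ C / lam := fun A B C hA h => by
    rw [le_div_iff₀ hlam0, add_mul, div_mul_cancel₀ _ hlam0.ne']
    have := mul_le_of_le_one_right hA hlam1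
    linarith only [this, h]
  have dv0 : ∀ A C : ℝ, 0 ≤ A → A ≤ C → A ≤ C / lam := fun A C hA h =>
    h.trans (le_dvl hlam0 hlam1 (hA.trans h))
  have hτ0 : (0 : ℝ) ≤ τ 0 := Nat.cast_nonneg _
  -- the levels
  have hV₀K : |V₀| ≤ K' := by
    rw [abs_le]
    constructor <;> linarith only [HN.K6, hV₀, hR₁]
  have hyK : |y| ≤ K' := by linarith only [hyabs, hKB5, hbR2, hbR3, hKB]
  have hdN : ∀ z : ℝ, |z| ≤ K' →
      |L (r + 1) (t + z * q) (t + z * q) - L (r + 1) t t - b * (z * q)| ≤ ε * q := fun z hz => by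
    have h1 := R.dL (r + 1) (by omega) (t + z * q) (by
      rw [add_sub_cancel_left, abs_mul, abs_of_pos hq]
      exact mul_le_mul_of_nonneg_right hz hq.le)
    rwa [hSb, add_sub_cancel_left] at h1
  have dV := abs_le.1 (hdN V₀ hV₀K)
  have dy := abs_le.1 (hdN y hyK)
  have hK6q : (-V₀ + 2) * q ≤ K' * q := mul_le_mul_of_nonneg_right HN.K6 hq.le
  have hvn0 : 2 * q < t + V₀ * q := by linarith only [hK6q, ht0]
  have hvn1 : t + V₀ * q < 1 := by
    have h1 : V₀ * q ≤ 0 := mul_nonpos_of_nonpos_of_nonneg (by linarith only [hV₀, hR₁]) hq.le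
    have h2 : 0 ≤ K' * q := mul_nonneg ((abs_nonneg _).trans hV₀K) hq.le
    linarith only [h1, h2, ht1]
  have hvlow : t + V₀ * q ≤ L (r + 1) (t + V₀ * q) (t + V₀ * q) :=
    R.low_at (i := r + 1) (by omega) (by linarith only [hvn0, hq]) le_rfl hvn1.le
  have hbxb : ∀ z : ℝ, -(R₁ + 2) ≤ z → z ≤ 0 → |t + z * q - t| ≤ K' * q := fun z h1 h2 => by
    rw [add_sub_cancel_left, abs_mul, abs_of_pos hq]
    refine mul_le_mul_of_nonneg_right ?_ hq.le
    rw [abs_le]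
    constructor <;> linarith only [h1, h2, hKB5, hbR2, hbR3, hKB, hR₁]
  -- the digits of the near path
  have hg1 : |bxg t q R₁ ((Nf * Tn) ^ n) 0 - t| ≤ K' * q := by
    have h1 := bxv_mem (R₁ := R₁) hΛ0 (Nat.zero_le _)
    exact hbxb _ h1.1 (h1.2.trans (by linarith only [hR₁]))
  have hvj : ∀ j ≤ Ms, |t + y * q + -(τ j : ℝ) * (lam * q) - t| ≤ K' * q := fun j hj => by
    obtain ⟨z, hz, e⟩ := hpz j hj
    have h1 := bxv_mem (R₁ := R₁) hΛ0 hz
    rw [show t + y * q + -(τ j : ℝ) * (lam * q) = t + (y + lam * (-(τ j : ℝ))) * q by ring, e]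
    exact hbxb _ h1.1 (h1.2.trans (by linarith only [hR₁]))
  have hty : |t + y * q - t| ≤ K' * q := hbxb _ hyb.1 (hyb.2.trans (by linarith only [hR₁]))
  have hC : ∀ j ≤ Ms, ∀ l < r, _ := fun j hj l hl =>
    bxC_le R (r := r) hl (by omega) hκ (X := X * q) (φ := φ * q) hg1 (hvj j hj)
  have hCt : ∀ l < r, _ := fun l hl =>
    bxC_le R (r := r) hl (by omega) hκ (X := X * q) (φ := φ * q) hg1 hty
  -- the mesh
  obtain ⟨ms, hms⟩ : ∃ ms : ℝ, ms = 1 / (((Nf * Tn) ^ n * Nw : ℕ) : ℝ) / lam := ⟨_, rfl⟩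
  have hms0 : 0 < ms := by rw [hms]; positivity
  have hmsq : ms * (lam * q) = 1 / (((Nf * Tn) ^ n * Nw : ℕ) : ℝ) * q := by
    rw [hms]
    field_simp
  have hcov : ∀ y' : ℝ, -(τ 0 : ℝ) ≤ y' → y' ≤ 0 → ∃ k' < 2 * ((Nf * Tn) ^ n * Nw) + 1,
      |bxg t q R₁ ((Nf * Tn) ^ n * Nw) k' - (t + y * q + y' * (lam * q))| ≤ ms * (lam * q) := by
    intro y' h1 h2
    obtain ⟨Λ, hΛ⟩ : ∃ Λ : ℝ, Λ = (((Nf * Tn) ^ n * Nw : ℕ) : ℝ) := ⟨_, rfl⟩
    have hΛ' : 0 < Λ := by rw [hΛ]; exact hΛr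
    obtain ⟨Z, hZ⟩ : ∃ Z, Z = y + y' * lam := ⟨_, rfl⟩
    have h3 : -(τ 0 : ℝ) * lam ≤ y' * lam := mul_le_mul_of_nonneg_right h1 hlam0.le
    have h4 : y' * lam ≤ 0 := mul_nonpos_of_nonpos_of_nonneg h2 hlam0.le
    have hZ0 : 0 ≤ (Z + R₁ + 2) * Λ := by
      refine mul_nonneg ?_ hΛ'.le
      linarith only [hZ, h3, hy', hy₀b]
    have hZ2 : (Z + R₁ + 2) * Λ ≤ 2 * Λ := by
      refine mul_le_mul_of_nonneg_right ?_ hΛ'.le
      linarith only [hZ, h4, hyb.2]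
    have f1 := Nat.floor_le hZ0
    have f2 := Nat.lt_floor_add_one ((Z + R₁ + 2) * Λ)
    refine ⟨⌊(Z + R₁ + 2) * Λ⌋₊, ?_, ?_⟩
    · refine Nat.lt_succ_of_le (Nat.floor_le_of_le ?_)
      push_cast
      rw [hΛ] at hZ2
      push_cast at hZ2
      rw [hΛ]
      push_cast
      exact hZ2
    · rw [hmsq, ← hΛ]
      unfold bxg bxv
      rw [← hΛ]
      have e1 : t + (-(R₁ + 2) + (⌊(Z + R₁ + 2) * Λ⌋₊ : ℝ) / Λ) * q -
          (t + y * q + y' * (lam * q)) =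
          (((⌊(Z + R₁ + 2) * Λ⌋₊ : ℝ) - (Z + R₁ + 2) * Λ) / Λ) * q := by
        rw [hZ]
        field_simp
        ring
      rw [e1, abs_mul, abs_of_pos hq, abs_div, abs_of_pos hΛ']
      refine mul_le_mul_of_nonneg_right (div_le_div_of_nonneg_right ?_ hΛ'.le) hq.le
      rw [abs_le]
      constructor <;> linarith only [f1, f2]
  have hwi : ∀ z ≤ (Nf * Tn) ^ n, ∀ w : ℝ, t + bxv R₁ ((Nf * Tn) ^ n) z * q = w →
      ∃ i < 2 * ((Nf * Tn) ^ n * Nw) + 1, bxg t q R₁ ((Nf * Tn) ^ n * Nw) i = w :=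
    fun z hz w hw => ⟨z * Nw, Nat.lt_succ_of_le ((Nat.mul_le_mul_right _ hz).trans
      (Nat.le_mul_of_pos_left _ (by norm_num))), by unfold bxg; rw [bxv_fine hNw, hw]⟩
  have hwG : ∀ k < 2 * ((Nf * Tn) ^ n * Nw) + 1, bxg t q R₁ ((Nf * Tn) ^ n * Nw) k ∈ G :=
    fun k hk => hmemG _ (wF k (Nat.le_of_lt_succ hk))
  -- the first jet at the moved record
  have HF := HC (S := S) (S₁ := S') hne' (fun τ J F A h => hs₁ τ J F A (hs' τ J F A h)) Rm hκ hSa hSb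
    (by positivity) hK₂0 hcu hμ hρ₀ halt (fun z hz => by
      have h1 := hnear (y + z * lam) (by
        have h2 : |z * lam| ≤ KB := by
          rw [abs_mul, abs_of_pos hlam0]
          rwa [← le_div_iff₀ hlam0]
        have h3 := abs_add_le y (z * lam)
        linarith only [h2, h3, hyabs, hKB5, hbR2, hbR3])
      rwa [show t + (y + z * lam) * q - g = t + y * q + z * (lam * q) - g by ring] at h1)
    ((hlab.sub hs').mv hlam0) (el := el) (dl := dl) (k₀ := k₀) HN.d0 HN.d1 HN.d2 hful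
    (by
      have h1 : (K₂ + τ 0) * (lam * q) = (K₂ * lam + τ 0 * lam) * q := by ring
      rw [h1]
      refine (mul_le_mul_of_nonneg_right ?_ hq.le).trans hk₀
      have h2 : (τ 0 : ℝ) * lam ≤ τ 0 := mul_le_of_le_one_right hτ0 hlam1
      rw [hK₂l]
      linarith only [h2, hyb.2, hlam0, hR₁])
    (Ψb := Ψb) (vn := t + V₀ * q) (En := e₀)
    (Rn := L r (t + V₀ * q) (t + V₀ * q) + μ / 2) (Pn := L (r + 1) (t + V₀ * q) (t + V₀ * q))
    (Pn' := L (r + 1) (t + V₀ * q) (t + V₀ * q) - e' * q / 16) (pe := e' * q / 2)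
    hΨs hΨl (n := 2 * ((Nf * Tn) ^ n * Nw) + 1) (wv := bxg t q R₁ ((Nf * Tn) ^ n * Nw))
    (pa₁ := pa₁) (pa₂ := pa₂) (d := d) hex hwG hms0 hcov
    (fun j hj => by
      obtain ⟨z, hz, e⟩ := hpz j hj
      refine hwi z hz _ ?_
      rw [← e]
      ring)
    (hwi x₀ hx₀le _ (by rw [← hy])) (by linarith only [hvn0, hq]) hvn1
    (by
      have h1 : (0 : ℝ) < (⌊b⌋₊ : ℝ) + 1 - b := by linarith only [Nat.lt_floor_add_one b]
      have h2 : lam * pzD (τ 0) b ≤ 1 := by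
        refine le_trans (mul_le_mul_of_nonneg_left HN.TD hlam0.le) hlT
      have h3 : (V₀ + (lam * τ 0 + lam * pzD (τ 0) b)) * q ≤ y * q := by
        refine mul_le_mul_of_nonneg_right ?_ hq.le
        linarith only [h2, hV₀, hy', hy₀b]
      linarith only [h3])
    (X := X / lam) (φ := φ / lam) (kf := kf / lam) (ℓ := ℓ / lam) (e' := e' / lam)
    (by rw [hel]) (by rw [hel]; linarith only [heq]) (by linarith only [hlq])
    mwτ mw0 mwK mwJ (dv0 _ _ (by positivity) HN.X1)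
    (dv0 _ _ (by positivity) (by linarith only [HN.X6, haτ, haτ2, ha0]))
    (by
      rw [show 32 * ((r : ℝ) + 1) * (φ / lam) = 32 * (r + 1) * φ / lam by ring]
      exact div_le_div_of_nonneg_right HN.X2 hlam0.le)
    (by
      rw [show (3 : ℝ) ^ r * (X / lam) = 3 ^ r * X / lam by ring]
      exact div_le_div_of_nonneg_right HN.k1 hlam0.le)
    (by
      rw [show b * (τ 0 : ℝ) + 2 * (r + 1) * (φ / lam) + 1 = b * τ 0 + 1 +
        2 * (r + 1) * φ / lam by ring]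
      exact dv _ _ _ (by positivity) (by linarith only [HN.k2]))
    (by
      rw [show kf / lam + (τ 0 : ℝ) = τ 0 + kf / lam by ring]
      exact dv _ _ _ (by positivity) (by linarith only [HN.m1, hR₁]))
    (by
      rw [show (3 : ℝ) ^ r * (X / lam) + τ 0 + 1 = τ 0 + 1 + 3 ^ r * X / lam by ring]
      exact dv _ _ _ (by positivity) (by linarith only [HN.m2]))
    (dv0 _ _ (by positivity) HN.m3)
    (by
      rw [show ℓ / lam + 1 = 1 + ℓ / lam by ring]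
      exact dv _ _ _ (by positivity) (by linarith only [HN.K1]))
    (by
      rw [show (τ 0 : ℝ) + 3 ^ r * (X / lam) + 3 = τ 0 + 3 + 3 ^ r * X / lam by ring]
      exact dv _ _ _ (by positivity) (by linarith only [HN.K2]))
    (dv0 _ _ (by positivity) HN.K3)
    (by
      rw [hK₂, show (τ 0 : ℝ) + ((y + K₀ + 2 * R₁ + 5) / lam - 1) + 2 = τ 0 + 1 +
        (y + K₀ + 2 * R₁ + 5) / lam by ring]
      exact dv _ _ _ (by positivity) (by linarith only [HN.K4, hyb.2, hR₁]))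
    (by positivity)
    (by
      rw [div_le_iff₀ hlam0]
      linarith only [hφl, hlml])
    (by
      rw [show 2 * (2 * ε / lam) = 4 * ε / lam by ring]
      exact div_le_div_of_nonneg_right (by linarith only [hεe, heφ, he'0, hφ0]) hlam0.le)
    (by positivity)
    (by
      rw [show φ / lam / 16 = φ / 16 / lam by ring]
      exact div_le_div_of_nonneg_right heφ hlam0.le)
    (by
      rw [div_le_iff₀ hlam0]
      linarith only [hφl, hlml, heφ, hlam0])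
    (by
      rw [show 128 * (2 * ε / lam) = 256 * ε / lam by ring]
      exact div_le_div_of_nonneg_right hεe hlam0.le)
    (by
      rw [hms, show b * (1 / (((Nf * Tn) ^ n * Nw : ℕ) : ℝ) / lam) =
        b / (((Nf * Tn) ^ n * Nw : ℕ) : ℝ) / lam by ring, show e' / lam / 32 = e' / 32 / lam by ring]
      exact div_le_div_of_nonneg_right HN.w2 hlam0.le)
    (by
      refine (mul_le_mul_of_nonneg_left hlq1 ?_).trans hqμ
      linarith only [hbτ])
    (pf := fun l => L l (t + y * q) (t + y * q)) (pr := L r (t + y * q) (t + y * q))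
    (fun l hl => ⟨by rw [hφl']; linarith only [hφq], le_rfl⟩) (by rw [hφl']; linarith only [hφq])
    (by
      rw [hel]
      have h1 : e' * q ≤ 1 * q := mul_le_mul_of_nonneg_right (by linarith only [he128]) hq.le
      linarith only [h1, hvlow, hvn0])
    (by
      rw [hXl]
      have h1 : (b * (y - V₀) + 2 * ε + (b * τ 0 + τ 0 + 3) * lam) * q ≤ X * q := by
        refine mul_le_mul_of_nonneg_right ?_ hq.le
        have h2 : (b * τ 0 + τ 0 + 3) * lam ≤ b * τ 0 + τ 0 + 3 :=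
          mul_le_of_le_one_right (by positivity) hlam1
        have h3 : b * y ≤ 0 := mul_nonpos_of_nonneg_of_nonpos hb0.le
          (by linarith only [hyb.2, hR₁])
        linarith only [h2, h3, hX5, hεe, he128, hbτ, hbτ2, hε]
      linarith only [h1, dV.1, dV.2, dy.1, dy.2])
    (by
      linarith only [dV.1, dV.2, dy.1, dy.2, q1, q2, q3, hφq])
    (by
      rw [div_le_iff₀ hlam0]
      exact HN.e2.trans (mul_le_mul_of_nonneg_left hlml hγ₁.le))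
    (by
      refine le_trans (mul_le_mul_of_nonneg_left ?_ HN.d0) HN.d4
      have h1 : (y + K₀ + 2 * R₁ + 5) / lam ≤ (K₀ + 2 * R₁ + 5) / lm := by
        have h2 : (y + K₀ + 2 * R₁ + 5) / lam ≤ (K₀ + 2 * R₁ + 5) / lam :=
          div_le_div_of_nonneg_right (by linarith only [hyb.2, hR₁]) hlam0.le
        exact h2.trans (div_le_div_of_nonneg_left (by linarith only [hK₀, hR₁]) hlm0 hlml)
      rw [hK₂]
      linarith only [h1]) HN.d3
    (C := bxC r L (bxg t q R₁ ((Nf * Tn) ^ n) 0) (X * q) (φ * q))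
    (fun j hj l hl => by
      have h1 := (hC j hj l hl).1
      unfold nX
      rw [hXl]
      linarith only [h1, q2, q3, hφq, heq])
    (fun j hj l hl => by
      have h1 := (hC j hj l hl).2
      unfold nX
      rw [hXl]
      linarith only [h1, q1, q2, q3, hφq, heq])
    (fun j hj Ψ E₂ r₂ E rd _ hPE hDc => stage_ipc (D := D) hr ha1 hab HS R' hκ hSa hSb hch HN hδ
      (hmemG V₀ wV) (fun z hz i hi => hmemG _ (wJ z hz i hi)) hs hk HB hlamE
      (by rw [hy, hx₀, hl₀, hu]) Rm hj Ψ E₂ r₂ E rd hPE hDc)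
  -- the velocity is alive
  obtain ⟨e₃, he₃, HA'⟩ := HA S' hs' lam y (t + y * q) hlml hlam1 hyb.1
    (by linarith only [hyb.2, hlam1]) rfl htG' (by
      have h1 := hRN x₀ hx₀le
      unfold bxg at h1
      rwa [← hy] at h1)
    (fun l j => L l (t + y * q) (t + y * q) + (3 ^ r * X + 1) * q - (j : ℕ) * (t + y * q))
    fun _ _ _ _ => rfl
  have hdq : dd * (lam * q) < c' * (lam * q) := mul_lt_mul_of_pos_right hc' hlq
  have haX : ∀ l, aX r (X / lam) l * (lam * q) = aX r (X * q) l := fun l => by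
    unfold aX
    field_simp
  have haX1 : ∀ l < r, 3 * aX r (X * q) l ≤ 3 ^ r * (X * q) := fun l hl =>
    aX_le (by positivity) hl
  have haX0 : ∀ l, 0 ≤ aX r (X * q) l := fun l => by
    unfold aX
    positivity
  have hvM : t + y * q + -(τ Ms : ℝ) * (lam * q) ≤ t + y * q := by
    have h1 : 0 ≤ (τ Ms : ℝ) * (lam * q) := mul_nonneg (Nat.cast_nonneg _) hlq.le
    linarith only [h1]
  have hNt : ∀ l < r, ∀ j : ℕ, j ≤ 1 → nfL (bxC r L (bxg t q R₁ ((Nf * Tn) ^ n) 0) (X * q)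
      (φ * q)) (t + y * q + -(τ Ms : ℝ) * (lam * q)) l j + (j : ℕ) * (t + y * q) ≤
      L l (t + y * q) (t + y * q) + aX r (X * q) l + 2 * (φ * q) + 2 * (ε * q) := by
    intro l hl j hj
    have h1 := (hCt l hl).2
    have h2 : (j : ℝ) ≤ 1 := by exact_mod_cast hj
    have h3 : (1 - (j : ℕ)) * (t + y * q + -(τ Ms : ℝ) * (lam * q)) ≤
        (1 - (j : ℕ)) * (t + y * q) := mul_le_mul_of_nonneg_left hvM (by linarith only [h2])
    unfold nfL
    linarith only [h1, h3]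
  exact alv_con hne' Rm hch htG' (X := X / lam) (Tn := 1) (φ := φ / lam) one_pos (by positivity)
    (by
      rw [div_le_iff₀ hlam0]
      linarith only [hφl, hlml])
    (dv0 _ _ (by norm_num) (by linarith only [hX5, hbV, hbτ, hbτ2, hτ1]))
    (by
      rw [show (3 : ℝ) ^ r * (X / lam) + 3 = 3 + 3 ^ r * X / lam by ring]
      exact dv _ _ _ (by norm_num) (by linarith only [HN.K2, hτ1]))
    (fun l hl => ⟨by rw [hφl']; linarith only [hφq], le_rfl⟩)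
    (fun l hl j hj => by
      have h1 := hNt l hl j hj
      have h2 := haX1 l hl
      have h3 := haX0 l
      linarith only [h1, h2, h3, q1, q2, q3, hφq, heq, hlq1])
    (fun l hl j hj => by
      rw [sub_mul, sub_mul, haX]
      have h2 := haX1 l hl
      have h3 := haX0 l
      linarith only [h2, h3, hlq, hq])
    (fun l hl j hj => by
      rw [add_mul, haX]
      have h1 := hNt l hl j hj
      linarith only [h1, q1, q2, q3, hφq, heq])
    le_rfl (by positivity) (by rw [hel, hφl']; linarith only [q2, hφq, heq]) he₃ hdq HF HA'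

end Pool.PN18
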