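import Pool.Agent.H28.PN.Bxr
import Pool.Agent.H37.PN.Ipc
import Pool.Agent.H33.PN.Chr
import Pool.Agent.H28.RV.Rcs

/-!
# The mutual information of the alive orders at a stage of a sub-box

`bxC_le`: the digits of the near path against the box of the near path. `stage_ipc`: the mutual
information of a stage of a sub-box, from no look-ahead in the sub-box (`ipc_sub` at the moved record).
-/

set_option autoImplicit false

namespace Pool.PN18

open Finset Real MvPolynomial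
open Pool.Agent.H49.Ent Pool.Agent.H32.Dense Pool.STK Pool.KA Pool.KSAT Pool.K2S Pool.PB Pool.GEN
open Pool.S6C Pool.RCD Pool.LA91 Pool.OWN68 Pool.AJW Pool.AJX Pool.CHT Pool.PKG Pool.ALT
open Pool.CR99 (PairE NzE)
open Pool.LP30 (paQ)

/-- The digits of the near path, against the box of the near path. -/
theorem bxC_le {m : ℕ} {S : PCl m} {al : ℝ} {g₀ : ℝ → ℝ}
    {P : List (Fin m) × Fin m → ℝ → ℝ → ℝ} {θ : ℝ} {P₂ : ℕ → List (Fin m) × Fin m → ℝ → ℝ → ℝ}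
    {θ₂ Eb e₂ : ℕ → ℝ} {c : ℕ → Fin m} {Pt : ℝ → ℝ → ℝ} {rt : ℝ → ℝ} {h K₀ g : ℝ}
    {L T : ℕ → ℝ → ℝ → ℝ} {Sl : ℕ → ℝ} {κ : ℕ → Kg} {G : Set ℝ} {S₀ N : ℕ} {A V : ℕ → ℝ}
    {S₂ N' : ℕ} {V' : ℕ → ℝ} {K ε q t : ℝ}
    (R : RecG S al g₀ P θ P₂ θ₂ Eb e₂ c Pt rt h K₀ g L T Sl κ G S₀ N A V S₂ N' V' K ε q t)
    {r l : ℕ} (hl : l < r) (hr : r ≤ m) (hκ : ∀ l < r, κ l = .one) {g₁ v X φ : ℝ}
    (h1 : |g₁ - t| ≤ K * q) (h2 : |v - t| ≤ K * q) :
    L l v v + aX r X l ≤ bxC r L g₁ X φ l + v - 2 * φ + 2 * (ε * q) ∧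
      bxC r L g₁ X φ l + v ≤ L l v v + aX r X l + 2 * φ + 2 * (ε * q) := by
  have hlm : l < m := by omega
  have hs : Sl l = 1 := by
    have h3 := R.kd l hlm
    rw [hκ l hl] at h3
    exact h3
  have a1 := abs_le.1 (R.dL l hlm g₁ h1)
  have a2 := abs_le.1 (R.dL l hlm v h2)
  rw [hs] at a1 a2
  unfold bxC
  constructor
  · linarith only [a1.1, a1.2, a2.1, a2.2]
  · linarith only [a1.1, a1.2, a2.1, a2.2]

section

variable {r : ℕ} {S : PCl (r + 2)} {al : ℝ} {g₀ : ℝ → ℝ}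
    {P : List (Fin (r + 2)) × Fin (r + 2) → ℝ → ℝ → ℝ}
    {θ : ℝ} {P₂ : ℕ → List (Fin (r + 2)) × Fin (r + 2) → ℝ → ℝ → ℝ} {θ₂ Eb e₂ : ℕ → ℝ}
    {c : ℕ → Fin (r + 2)} {Pt : ℝ → ℝ → ℝ} {rt : ℝ → ℝ} {h K₀ g : ℝ} {L T : ℕ → ℝ → ℝ → ℝ}
    {Sl : ℕ → ℝ} {κ : ℕ → Kg} {G : Set ℝ} {S₀ N : ℕ} {A V : ℕ → ℝ} {S₂ N' : ℕ} {V' : ℕ → ℝ}
    {K' ε q t : ℝ}

/-- **The mutual information of the alive orders** at a stage of a sub-box. -/
theorem stage_ipc {D Ms : ℕ} (hr : 1 ≤ r) {a b : ℝ} (ha1 : 1 < a) (hab : a < b) {x : ℕ → ℝ}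
    {τ : ℕ → ℕ} (HS : StgM a b (max D D * max 1 D) Ms x τ)
    (R : RecG S al g₀ P θ P₂ θ₂ Eb e₂ c Pt rt h K₀ g L T Sl κ G S₀ N A V S₂ N' V' K' ε q t)
    (hκ : ∀ l < r, κ l = .one) (hSa : Sl r = a) (hSb : Sl (r + 1) = b)
    (hch : ChG S c (r + 1) (fun l x => L l x x) G)
    {R₁ V₀ γ₁ lm ε₁ X φ kf ℓ e' KB el dl : ℝ} {δ : ℕ → ℝ} {Tn Nf n Nw : ℕ}
    (HN : ResN r (max D D * max 1 D) a b K₀ R₁ V₀ Ms τ (stR a x (fun i => (τ i : ℝ))) δ γ₁ Tn Nf
      n Nw lm ε₁ X φ kf ℓ e' ε KB K' el dl) (hδ : ∀ k < Ms, 0 < δ k)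
    (htG : t + V₀ * q ∈ G)
    (hWj : ∀ z ≤ (Nf * Tn) ^ n, ∀ i ≤ r, t + jfV r (bxv R₁ ((Nf * Tn) ^ n) z) X i * q ∈ G)
    {s k₁ : ℕ} (hs : s < n) (hk : k₁ < (Nf * Tn) ^ s)
    {d : ∀ (J : ℕ) (F : Fam (r + 2) J), LbD F}
    (HB : NlB r S c L d a b R₁ V₀ t q ε e' X φ (a * stR a x (fun i => (τ i : ℝ)) 0 / Tn)
      (b * stR a x (fun i => (τ i : ℝ)) 0 / Tn) ε₁ (Nf * Tn) n s k₁)
    {lam y : ℝ} (hlam : lam = 1 / (((Nf * Tn : ℕ) : ℝ) ^ s * Tn))
    (hy : y = bxv R₁ ((Nf * Tn) ^ n) (k₁ * (Nf * Tn) ^ (n - s) +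
      τ 0 * Nf * (Nf * Tn) ^ (n - s - 1))) {K₂ : ℝ} {N₁ N₁' : ℕ} {A₁ V₁ V₁' : ℕ → ℝ}
    (Rm : RecG S al g₀ P θ P₂ θ₂ Eb e₂ c Pt rt h K₂ g L T Sl κ G S₀ N₁ A₁ V₁ S₂ N₁' V₁'
      (KB / lam) (2 * ε / lam) (lam * q) (t + y * q)) {En Rn h' : ℝ} {N₀ : ℕ} {j : ℕ}
    (hj : j < Ms) :
    ∀ (Ψ : Fm2 (r + 2)) (E₂ r₂ : ℝ) (E rd : ℕ → ℝ),
        PairE S Ψ c r (max D D * max 1 D) ((range (r + 1)).image c) (c (r + 1)) a b
          (stR a x (fun i => (τ i : ℝ)) j) h' (δ j) (ℓ / lam * (lam * q)) N₀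
          (t + y * q + -(τ (j + 1) : ℝ) * (lam * q)) (t + y * q) (lam * q)
          (fun i => L i (t + y * q + -(τ (j + 1) : ℝ) * (lam * q))
            (t + y * q + -(τ (j + 1) : ℝ) * (lam * q)))
          (nX r (fun l x => L l x x) (t + y * q + -(τ (j + 1) : ℝ) * (lam * q))
            (X / lam * (lam * q)))
          (fun x => L (r + 1) x x) (fun l => L l (t + y * q) (t + y * q))
          (nfL (bxC r L (bxg t q R₁ ((Nf * Tn) ^ n) 0) (X * q) (φ * q))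
            (t + y * q + -(τ (j + 1) : ℝ) * (lam * q)))
          (e' / lam * (lam * q)) E₂ r₂
          (L (r + 1) (t + y * q + -(τ (j + 1) : ℝ) * (lam * q))
            (t + y * q + -(τ (j + 1) : ℝ) * (lam * q))) E rd (t + V₀ * q)
          (L (r + 1) (t + V₀ * q) (t + V₀ * q)) En Rn (D * max 1 D) →
        DcpD Ψ d ((range r).image c) ((range (r + 1)).image c) (c (r + 1)) (D * max 1 D)
          (t + V₀ * q) (t + y * q + -(τ (j + 1) : ℝ) * (lam * q)) En Rn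
          (L (r + 1) (t + V₀ * q) (t + V₀ * q)) (e' / lam * (lam * q)) →
        IpC S Ψ c r (max D D * max 1 D) L (lam * q) (t + y * q) a b (x j) (x (j + 1))
          (x j * (b / a)) (x (j + 1) * (b / a)) (τ (j + 1)) (stR a x (fun i => (τ i : ℝ)) j)
          (φ / lam) (fun l => L l (t + y * q) (t + y * q))
          (nfL (bxC r L (bxg t q R₁ ((Nf * Tn) ^ n) 0) (X * q) (φ * q))
            (t + y * q + -(τ (j + 1) : ℝ) * (lam * q))) (e' / lam * (lam * q)) (δ j) := by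
  have hq := R.q0
  have ht0 := R.t0
  have ht1 := R.t1
  have ha0 : 0 < a := by linarith only [ha1]
  have hb0 : 0 < b := by linarith only [ha0, hab]
  have hba : 0 < b / a := div_pos hb0 ha0
  have hNf : 0 < Nf := HN.N1
  have hTn : 0 < Tn := HN.T1
  have hNfr : (0 : ℝ) < Nf := by exact_mod_cast hNf
  have hTnr : (0 : ℝ) < Tn := by exact_mod_cast hTn
  have hM0 : 0 < Nf * Tn := Nat.mul_pos hNf hTn
  have hΛ0 : 0 < (Nf * Tn) ^ n := pow_pos hM0 n
  -- the scale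
  have hMs : (1 : ℝ) ≤ ((Nf * Tn : ℕ) : ℝ) ^ s := one_le_pow₀ (by exact_mod_cast hM0)
  have hMT : (1 : ℝ) ≤ ((Nf * Tn : ℕ) : ℝ) ^ s * Tn := by
    have h1 : (1 : ℝ) ≤ Tn := by exact_mod_cast hTn
    nlinarith only [hMs, h1]
  have hlam0 : 0 < lam := by rw [hlam]; positivity
  have hlam1 : lam ≤ 1 := by
    rw [hlam, div_le_one (by positivity)]
    exact hMT
  have hlM : lam * (((Nf * Tn : ℕ) : ℝ) ^ s * Tn) = 1 := by
    rw [hlam]
    field_simp
  have hlml : lm ≤ lam := by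
    rw [hlam, le_div_iff₀ (by positivity)]
    refine le_trans ?_ HN.lE
    refine mul_le_mul_of_nonneg_left ?_ HN.l0.le
    refine mul_le_mul_of_nonneg_right ?_ hTnr.le
    exact pow_le_pow_right₀ (by exact_mod_cast hM0) hs.le
  -- the stage
  obtain ⟨hx0, -, -⟩ := HS.pos (j + 1) (by omega)
  obtain ⟨-, hτ1, hxτ⟩ := HS.pos (j + 1) (by omega)
  have hτ1r : (1 : ℝ) ≤ (τ (j + 1) : ℝ) := by exact_mod_cast hτ1
  have hxx := HS.xs j hj
  have hxj := HS.xle j hj.le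
  have hx'a := (HS.xle (j + 1) (by omega)).2 (by omega)
  have hττ : τ (j + 1) ≤ τ 0 := HS.mono (j + 1) (by omega)
  have hττr : (τ (j + 1) : ℝ) ≤ τ 0 := by exact_mod_cast hττ
  obtain ⟨Rj, hRj⟩ : ∃ Rj, Rj = stR a x (fun i => (τ i : ℝ)) j := ⟨_, rfl⟩
  have hRa : a * Rj = (a - x (j + 1)) * τ (j + 1) := by
    rw [hRj]
    unfold stR
    field_simp
  have hR0 : 0 < Rj := by
    have h1 : 0 < a * Rj := by
      rw [hRa]
      exact mul_pos (by linarith only [hx'a]) (by linarith only [hτ1r])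
    exact pos_of_mul_pos_right h1 ha0.le
  have hRb : b * Rj = (b - x (j + 1) * (b / a)) * τ (j + 1) := by
    have h1 : b - x (j + 1) * (b / a) = b / a * (a - x (j + 1)) := by
      field_simp
    rw [h1, mul_assoc, ← hRa]
    field_simp
  have hδj := hδ j hj
  -- the points
  obtain ⟨l, hl⟩ : ∃ l, l = k₁ * (Nf * Tn) ^ (n - s) := ⟨_, rfl⟩
  obtain ⟨u, hu⟩ : ∃ u, u = (Nf * Tn) ^ (n - s - 1) := ⟨_, rfl⟩
  obtain ⟨y₀, hy₀⟩ : ∃ y₀, y₀ = bxv R₁ ((Nf * Tn) ^ n) l := ⟨_, rfl⟩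
  have hpt : ∀ z : ℕ, bxv R₁ ((Nf * Tn) ^ n) (l + z * u) = y₀ + z * (lam / Nf) := fun z => by
    rw [hu, bx_lin hNf hTn hs l z, ← hy₀, hlam]
  have hple : ∀ z ≤ Nf * Tn, l + z * u ≤ (Nf * Tn) ^ n := fun z hz => by
    rw [hl, hu]
    exact bx_le hM0 hs hk hz
  rw [← hl, ← hu, hpt] at hy
  have hy' : y = y₀ + τ 0 * lam := by
    rw [hy]
    push_cast
    field_simp
  have hj1 : j + 1 ≤ Ms := hj
  have hj0 : j ≤ Ms := hj.le
  have hτr := hτ1r
  have hlq : 0 < lam * q := mul_pos hlam0 hq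
  have hlq1 : lam * q ≤ q := mul_le_of_le_one_left hq.le hlam1
  have hlmq : lm * q ≤ lam * q := mul_le_mul_of_nonneg_right hlml hq.le
  have hφ0 := HN.f0
  have he'0 := HN.e0
  have hε := HN.g0
  have hφl := HN.f1
  have heφ := HN.e1
  have hεe := HN.g1
  have hlm1 : lm ≤ 1 := hlml.trans hlam1
  have hφ8 : φ ≤ 1 / 8 := by linarith only [hφl, hlm1]
  have he128 : e' ≤ 1 / 128 := by linarith only [heφ, hφ8]
  have hR₁ := HN.R0
  have hV₀ := HN.V0
  have hr0 : (0 : ℝ) ≤ r := Nat.cast_nonneg r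
  have hτ0 : (1 : ℝ) ≤ τ 0 := by
    have h1 := (HS.pos 0 (Nat.zero_le _)).2.1
    exact_mod_cast h1
  have hτn : (0 : ℝ) ≤ τ 0 := by linarith only [hτ0]
  have hbτ : 0 < b * τ 0 := mul_pos hb0 (by linarith only [hτ0])
  have hbτ2 : 0 < b * (b * τ 0) := mul_pos hb0 hbτ
  have haτ : 0 < a * τ 0 := mul_pos ha0 (by linarith only [hτ0])
  have haτ2 : 0 < a * (a * τ 0) := mul_pos ha0 haτ
  have hbV : 0 ≤ b * -V₀ := mul_nonneg hb0.le (by linarith only [hV₀, hR₁])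
  have hX5 := HN.X5
  have hX0 : 0 < X := by linarith only [hX5, hbV, hbτ, hbτ2, hτ0]
  have h3X : 0 < 3 ^ r * X := by positivity
  -- products
  have hel : e' / lam * (lam * q) = e' * q := by field_simp
  have hφl' : φ / lam * (lam * q) = φ * q := by field_simp
  have hXl : X / lam * (lam * q) = X * q := by field_simp
  have hφq : 0 < φ * q := mul_pos hφ0 hq
  have heq : 0 < e' * q := mul_pos he'0 hq
  have hεq : 0 < ε * q := mul_pos hε hq
  have q1 : 8 * (φ * q) ≤ lam * q := by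
    have h1 := mul_le_mul_of_nonneg_right (hφl.trans hlml) hq.le
    linarith only [h1]
  have q2 : 16 * (e' * q) ≤ φ * q := by
    have h1 := mul_le_mul_of_nonneg_right heφ hq.le
    linarith only [h1]
  have q3 : 256 * (ε * q) ≤ e' * q := by
    have h1 := mul_le_mul_of_nonneg_right hεe hq.le
    linarith only [h1]
  have dv : ∀ A B C : ℝ, 0 ≤ A → A + B ≤ C → A + B / lam ≤ C / lam := fun A B C hA h => by
    rw [le_div_iff₀ hlam0, add_mul, div_mul_cancel₀ _ hlam0.ne']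
    have := mul_le_of_le_one_right hA hlam1
    linarith only [this, h]
  have dv0 : ∀ A C : ℝ, 0 ≤ A → A ≤ C → A ≤ C / lam := fun A C hA h =>
    h.trans (le_dvl hlam0 hlam1 (hA.trans h))
  -- the levels
  have hK5 := HN.K5
  have hbR2 : (b + 1) * (R₁ + 2) = b * (R₁ + 2) + (R₁ + 2) := by ring
  have hbR3 : 0 ≤ b * (R₁ + 2) := mul_nonneg hb0.le (by linarith only [hR₁])
  have hKB : 0 < KB := by linarith only [HN.K2, h3X, hτ0]
  have hV₀K : |V₀| ≤ K' := by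
    rw [abs_le]
    constructor <;> linarith only [HN.K6, hV₀, hR₁]
  have hdL : ∀ i < r + 2, ∀ z w : ℝ, |z| ≤ K' → |w| ≤ K' →
      |L i (t + z * q) (t + z * q) - L i (t + w * q) (t + w * q) - Sl i * ((z - w) * q)| ≤
        2 * (ε * q) := fun i hi z w hz hw => by
    have h1 := abs_le.1 (R.dL i hi (t + z * q) (by
      rw [add_sub_cancel_left, abs_mul, abs_of_pos hq]
      exact mul_le_mul_of_nonneg_right hz hq.le))
    have h2 := abs_le.1 (R.dL i hi (t + w * q) (by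
      rw [add_sub_cancel_left, abs_mul, abs_of_pos hq]
      exact mul_le_mul_of_nonneg_right hw hq.le))
    rw [add_sub_cancel_left] at h1 h2
    have e1 : Sl i * ((z - w) * q) = Sl i * (z * q) - Sl i * (w * q) := by ring
    rw [e1, abs_le]
    constructor <;> linarith only [h1.1, h1.2, h2.1, h2.2]
  have hK6q : (-V₀ + 2) * q ≤ K' * q := mul_le_mul_of_nonneg_right HN.K6 hq.le
  have hvn0 : 2 * q < t + V₀ * q := by linarith only [hK6q, ht0]
  have hvn1 : t + V₀ * q < 1 := by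
    have h1 : V₀ * q ≤ 0 := mul_nonpos_of_nonpos_of_nonneg (by linarith only [hV₀, hR₁]) hq.le
    have h2 : 0 ≤ K' * q := mul_nonneg ((abs_nonneg _).trans hV₀K) hq.le
    linarith only [h1, h2, ht1]
  have hvlow : t + V₀ * q ≤ L (r + 1) (t + V₀ * q) (t + V₀ * q) :=
    R.low_at (i := r + 1) (by omega) (by linarith only [hvn0, hq]) le_rfl hvn1.le
  have hbxK : ∀ z : ℝ, -(R₁ + 2) ≤ z → z ≤ 0 → |z| ≤ K' := fun z h1 h2 => by
    rw [abs_le]
    constructor <;> linarith only [h1, h2, hK5, hbR2, hbR3, hKB, hR₁]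
  have hbxb : ∀ z : ℝ, |z| ≤ K' → |t + z * q - t| ≤ K' * q := fun z h => by
    rw [add_sub_cancel_left, abs_mul, abs_of_pos hq]
    exact mul_le_mul_of_nonneg_right h hq.le
  -- the points of the stage
  have hT0 : τ 0 ≤ Tn := HN.T0
  obtain ⟨iα, hiα⟩ : ∃ iα, iα = (τ 0 - τ (j + 1)) * Nf := ⟨_, rfl⟩
  obtain ⟨iβ, hiβ⟩ : ∃ iβ, iβ = τ 0 * Nf := ⟨_, rfl⟩
  have hαβ : iα ≤ iβ := by
    rw [hiα, hiβ]
    exact Nat.mul_le_mul_right _ (Nat.sub_le _ _)
  have hβM : iβ ≤ Nf * Tn := by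
    rw [hiβ, Nat.mul_comm Nf Tn]
    exact Nat.mul_le_mul_right _ hT0
  have hαr : (iα : ℝ) = (τ 0 - τ (j + 1)) * Nf := by
    rw [hiα]
    push_cast [Nat.cast_sub hττ]
    ring
  have hβr : (iβ : ℝ) = τ 0 * Nf := by
    rw [hiβ]
    push_cast
    ring
  have hy0b := bxv_mem (R₁ := R₁) hΛ0 (hple 0 (Nat.zero_le _))
  have hvb := bxv_mem (R₁ := R₁) hΛ0 (hple iα (hαβ.trans hβM))
  have hyb := bxv_mem (R₁ := R₁) hΛ0 (hple iβ hβM)
  have ey : bxv R₁ ((Nf * Tn) ^ n) (l + iβ * u) = y := by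
    rw [hpt, hβr, hy']
    field_simp
  have ev : bxv R₁ ((Nf * Tn) ^ n) (l + iα * u) = y + -(τ (j + 1) : ℝ) * lam := by
    rw [hpt, hαr, hy']
    field_simp
    ring
  rw [ey] at hyb
  rw [ev] at hvb
  obtain ⟨v, hv⟩ : ∃ v, v = t + y * q + -(τ (j + 1) : ℝ) * (lam * q) := ⟨_, rfl⟩
  have hv1 : v = t + (y + -(τ (j + 1) : ℝ) * lam) * q := by rw [hv]; ring
  obtain ⟨g₁, hg₁⟩ : ∃ g₁, g₁ = bxg t q R₁ ((Nf * Tn) ^ n) 0 := ⟨_, rfl⟩
  have hg1 : g₁ = t + -(R₁ + 2) * q := by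
    rw [hg₁]
    unfold bxg bxv
    simp
  have hvK := hbxK _ hvb.1 (hvb.2.trans (by linarith only [hR₁]))
  have hyK := hbxK _ hyb.1 (hyb.2.trans (by linarith only [hR₁]))
  have hgK : |-(R₁ + 2)| ≤ K' := hbxK _ le_rfl (by linarith only [hR₁])
  have hmj : ∀ i ≤ r, ∀ z ≤ (Nf * Tn) ^ n, ∀ w : ℝ, bxv R₁ ((Nf * Tn) ^ n) z = w →
      t + jfV r w X i * q ∈ G := fun i hi z hz w hw => by
    rw [← hw]
    exact hWj z hz i hi
  have htG' : t + y * q ∈ G := by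
    have h1 := hmj 0 (Nat.zero_le _) _ (hple iβ hβM) _ ey
    rwa [jfV_zero] at h1
  have hgG : g₁ ∈ G := by
    rw [hg1]
    have h1 := hmj 0 (Nat.zero_le _) 0 (Nat.zero_le _) (-(R₁ + 2)) (by unfold bxv; simp)
    rwa [jfV_zero] at h1
  have hvG : ∀ k ≤ r, t + y * q + jfV r (-(τ (j + 1) : ℝ)) (X / lam) k * (lam * q) ∈ G :=
    fun k hk => by
    have h1 := hmj k hk _ (hple iα (hαβ.trans hβM)) _ ev
    rw [show y + -(τ (j + 1) : ℝ) * lam = y + lam * -(τ (j + 1) : ℝ) by ring,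
      ← jfV_sc r hlam0] at h1
    rwa [show t + (y + lam * jfV r (-(τ (j + 1) : ℝ)) (X / lam) k) * q =
      t + y * q + jfV r (-(τ (j + 1) : ℝ)) (X / lam) k * (lam * q) by ring] at h1
  have hC : ∀ l < r, _ := fun l hl => bxC_le R (r := r) hl (by omega) hκ (X := X * q) (φ := φ * q)
    (g₁ := g₁) (v := v) (by rw [hg1]; exact hbxb _ hgK) (by rw [hv1]; exact hbxb _ hvK)
  -- the levels at the points
  have dv1 := abs_le.1 (hdL r (by omega) _ _ hvK hgK)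
  have dv2 := abs_le.1 (hdL (r + 1) (by omega) _ _ hvK hgK)
  have dg := abs_le.1 (hdL (r + 1) (by omega) _ _ hgK hV₀K)
  rw [← hv1, ← hg1, hSa] at dv1
  rw [← hv1, ← hg1, hSb] at dv2
  rw [← hg1, hSb] at dg
  have hvg : v - g₁ = (y + -(τ (j + 1) : ℝ) * lam - -(R₁ + 2)) * q := by rw [hv1, hg1]; ring
  have hgv : g₁ ≤ v := by
    have h1 : 0 ≤ (y + -(τ (j + 1) : ℝ) * lam - -(R₁ + 2)) * q :=
      mul_nonneg (by linarith only [hvb.1]) hq.le
    linarith only [h1, hvg]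
  -- the mutual information
  rw [← hRj, ← hv]
  have E1 := HN.E1 j hj
  have F2 := HN.f2 j hj
  have E3 := HN.e3 j hj
  have N2 := HN.N2 j hj
  have N8 := HN.N8
  rw [← hRj] at E1 F2 E3 N2
  have hδR : 0 < δ j * Rj := mul_pos hδj hR0
  have hδl : δ j * Rj * lm ≤ δ j * Rj * lam := mul_le_mul_of_nonneg_left hlml hδR.le
  have hk1 : ε₁ / ((Nf * Tn : ℕ) : ℝ) ^ s * q = ε₁ * Tn * (lam * q) := by
    rw [hlam]
    field_simp
  have hεε : 0 < ε₁ := HN.E0
  have hρ0 : 0 ≤ b * (lam * q) / Nf := by positivity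
  have hρ8 : b * (lam * q) / Nf ≤ lam * q / 8 := by
    rw [div_le_iff₀ hNfr]
    have h1 := mul_le_mul_of_nonneg_right N8 hlq.le
    linarith only [h1]
  have hρδ : 128 * (b * (lam * q) / Nf) ≤ δ j * (Rj * (lam * q)) := by
    rw [← mul_div_assoc, div_le_iff₀ hNfr]
    have h1 := mul_le_mul_of_nonneg_right N2 hlq.le
    linarith only [h1]
  have he₀ : (2 * ε + e') * q ≤ 2 * (e' * q) := by linarith only [q3, heq]
  have E3q : 256 * (e' * q) ≤ δ j * (Rj * (lam * q)) := by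
    have h1 := mul_le_mul_of_nonneg_right (E3.trans hδl) hq.le
    linarith only [h1]
  have hvB : v = bxg t q R₁ ((Nf * Tn) ^ n) (l + iα * u) := by
    unfold bxg
    rw [ev, hv1]
  have hwB : t + y * q = bxg t q R₁ ((Nf * Tn) ^ n) (l + iβ * u) := by
    unfold bxg
    rw [ey]
  have HBq := HB l u hl hu
  rw [← hg₁] at HBq ⊢
  refine ipc_sub (K := max D D * max 1 D) (K₁ := D * max 1 D) hr ha1 hab (x := x j)
    (x' := x (j + 1)) (y := x j * (b / a)) (y' := x (j + 1) * (b / a)) (τ' := (τ (j + 1) : ℝ))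
    (R := Rj) hx0 hxj.1 (mul_pos hx0 hba) ?_ hR0 hRa hRb hτ1r hxτ ?_ Rm hκ hSa hSb hch
    (X := X / lam) (φ := φ / lam) (kf := kf / lam) (ℓ := ℓ / lam) (e' := e' / lam) (δ := δ j)
    (div_pos hφ0 hlam0) ?_ ?_ ?_ ?_ ?_ ?_ ?_ ?_ (by positivity) htG' hvG
    (pf := fun l => L l (t + y * q) (t + y * q)) (Nf := nfL (bxC r L g₁ (X * q) (φ * q)) v) ?_
    (div_pos he'0 hlam0) ?_ hδj (v := v) hv (C := bxC r L g₁ (X * q) (φ * q))
    (γ := 4 * (φ * q)) (by positivity) ?_ ?_ ?_ (fun _ _ _ _ => rfl) (b₀ := g₁)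
    (e₀ := (2 * ε + e') * q) hgG hgv (by positivity) ?_ ?_ (d := d) (vn := t + V₀ * q)
    (Pn := L (r + 1) (t + V₀ * q) (t + V₀ * q)) ?_ ?_ ?_
    (κ₁ := ε₁ / ((Nf * Tn : ℕ) : ℝ) ^ s * q) (ρ := b * (lam * q) / Nf) hρ0 (by positivity)
    ?_ ?_ ?_ ?_ ?_ ?_ ?_
  · have h1 := mul_le_mul_of_nonneg_right hxj.1 hba.le
    rwa [mul_div_cancel₀ _ ha0.ne'] at h1
  · have h1 : x (j + 1) * τ (j + 1) ≤ x (j + 1) * (b / a) * τ (j + 1) := by
      have h2 : 1 ≤ b / a := (one_le_div ha0).2 hab.le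
      have h3 : 0 ≤ x (j + 1) * (τ (j + 1) : ℝ) := by positivity
      have h4 := mul_le_mul_of_nonneg_right h2 h3
      linarith only [h4]
    exact hxτ.trans h1
  · rw [div_le_iff₀ hlam0]
    linarith only [hφl, hlml]
  · rw [show 32 * ((r : ℝ) + 1) * (φ / lam) = 32 * (r + 1) * φ / lam by ring]
    exact div_le_div_of_nonneg_right HN.X2 hlam0.le
  · refine dv0 _ _ (by positivity) (le_trans ?_ HN.X1)
    have h1 : (a + b + ((max D D * max 1 D : ℕ) : ℝ) + 8) * (τ (j + 1) : ℝ) ≤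
        (a + b + ((max D D * max 1 D : ℕ) : ℝ) + 8) * τ 0 :=
      mul_le_mul_of_nonneg_left hττr (by positivity)
    linarith only [h1]
  · rw [show (3 : ℝ) ^ r * (X / lam) = 3 ^ r * X / lam by ring]
    exact div_le_div_of_nonneg_right HN.k1 hlam0.le
  · rw [show kf / lam + (τ (j + 1) : ℝ) = τ (j + 1) + kf / lam by ring]
    exact dv _ _ _ (by positivity) (by linarith only [HN.m1, hR₁, hττr])
  · exact div_le_div_of_nonneg_right (by linarith only [HN.K1]) hlam0.le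
  · rw [show (τ (j + 1) : ℝ) + 3 ^ r * (X / lam) + 2 = τ (j + 1) + 2 + 3 ^ r * X / lam by ring]
    exact dv _ _ _ (by positivity) (by linarith only [HN.K2, hττr])
  · rw [show 2 * (2 * ε / lam) = 4 * ε / lam by ring]
    exact div_le_div_of_nonneg_right (by linarith only [hεe, heφ, he'0, hφ0]) hlam0.le
  · intro i _
    rw [hφl']
    linarith only [hφq]
  · rw [show φ / lam / 16 = φ / 16 / lam by ring]
    exact div_le_div_of_nonneg_right heφ hlam0.le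
  · rw [hXl]
    have h1 : 8 * (φ * q) ≤ X * q := by
      have h2 := mul_le_mul_of_nonneg_right HN.X2 hq.le
      have h3 : 0 ≤ (r : ℝ) * (φ * q) := by positivity
      linarith only [h2, h3, hφq]
    linarith only [h1]
  · intro i hi
    have h1 := (hC i hi).1
    unfold nX
    rw [hXl, hφl']
    linarith only [h1, q2, q3, hφq, heq]
  · intro i hi
    have h1 := (hC i hi).2
    unfold nX
    rw [hXl]
    linarith only [h1, q2, q3, hφq, heq]
  · rw [abs_le, hvg]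
    constructor <;> linarith only [dv1.1, dv1.2, heq]
  · rw [abs_le, hvg]
    constructor <;> linarith only [dv2.1, dv2.2, heq]
  · linarith only [hvlow, hvn0, hlq1]
  · rw [hXl, hg1]
    have h1 : (a * (y - -(R₁ + 2)) + (a * (2 * τ (j + 1)) + (1 + a * (a * τ (j + 1)))) * lam) * q ≤
        X * q := by
      refine mul_le_mul_of_nonneg_right ?_ hq.le
      have h2 : (a * (2 * (τ (j + 1) : ℝ)) + (1 + a * (a * τ (j + 1)))) * lam ≤
          a * (2 * (τ (j + 1) : ℝ)) + (1 + a * (a * τ (j + 1))) :=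
        mul_le_of_le_one_right (by positivity) hlam1
      have h3 : a * (y - -(R₁ + 2)) ≤ a * 1 :=
        mul_le_mul_of_nonneg_left (by linarith only [hyb.2]) ha0.le
      have h4 : a * (a * (τ (j + 1) : ℝ)) ≤ a * (a * τ 0) :=
        mul_le_mul_of_nonneg_left (mul_le_mul_of_nonneg_left hττr ha0.le) ha0.le
      have h5 : a * (τ (j + 1) : ℝ) ≤ a * τ 0 := mul_le_mul_of_nonneg_left hττr ha0.le
      linarith only [h2, h3, h4, h5, HN.X6, hτn]
    linarith only [h1]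
  · rw [hXl]
    have h1 : (b * (y - V₀) + 2 * ε + (b * (2 * τ (j + 1)) + (1 + b * (b * τ (j + 1)))) * lam) * q ≤
        X * q := by
      refine mul_le_mul_of_nonneg_right ?_ hq.le
      have h2 : (b * (2 * (τ (j + 1) : ℝ)) + (1 + b * (b * τ (j + 1)))) * lam ≤
          b * (2 * (τ (j + 1) : ℝ)) + (1 + b * (b * τ (j + 1))) :=
        mul_le_of_le_one_right (by positivity) hlam1
      have h3 : b * y ≤ 0 := mul_nonpos_of_nonneg_of_nonpos hb0.le
        (by linarith only [hyb.2, hR₁])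
      have h4 : b * (b * (τ (j + 1) : ℝ)) ≤ b * (b * τ 0) :=
        mul_le_mul_of_nonneg_left (mul_le_mul_of_nonneg_left hττr hb0.le) hb0.le
      have h5 : b * (τ (j + 1) : ℝ) ≤ b * τ 0 := mul_le_mul_of_nonneg_left hττr hb0.le
      linarith only [h2, h3, h4, h5, hX5, hτn, hεe, he128, hε]
    have h2 : b * (t + y * q - g₁) = b * ((y - -(R₁ + 2)) * q) := by rw [hg1]; ring
    rw [h2]
    linarith only [h1, dg.1, dg.2]
  · -- `i < a`
    intro i hi1 hi2 _ j' _ _ _ hij hia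
    have hai : 0 < a - i := by linarith only [hia]
    obtain ⟨cc, hcc⟩ : ∃ cc : ℕ, cc = ⌈(Nf : ℝ) * (a * Rj / (a - i))⌉₊ := ⟨_, rfl⟩
    have hQ0 : 0 ≤ (Nf : ℝ) * (a * Rj / (a - i)) := by positivity
    have c1 : (Nf : ℝ) * (a * Rj / (a - i)) ≤ cc := by rw [hcc]; exact Nat.le_ceil _
    have c2 : (cc : ℝ) < Nf * (a * Rj / (a - i)) + 1 := by
      rw [hcc]
      exact Nat.ceil_lt_add_one hQ0
    have hdiv : a * Rj / (a - i) * (a - i) = a * Rj := div_mul_cancel₀ _ hai.ne'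
    have c3 : (Nf : ℝ) * (a * Rj) ≤ (a - i) * cc := by
      have h1 := mul_le_mul_of_nonneg_right c1 hai.le
      have h2 : (Nf : ℝ) * (a * Rj / (a - i)) * (a - i) = Nf * (a * Rj) := by rw [mul_assoc, hdiv]
      linarith only [h1, h2]
    have c4 : (a - i) * cc ≤ (Nf : ℝ) * (a * Rj) + (a - i) := by
      have h1 := mul_le_mul_of_nonneg_right c2.le hai.le
      have h2 : (Nf : ℝ) * (a * Rj / (a - i)) * (a - i) = Nf * (a * Rj) := by rw [mul_assoc, hdiv]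
      linarith only [h1, h2]
    have c5 : (τ (j + 1) : ℝ) ≤ a * Rj / (a - i) := by
      rw [le_div_iff₀ hai, hRa]
      have h1 : (τ (j + 1) : ℝ) * (a - i) ≤ τ (j + 1) * (a - x (j + 1)) :=
        mul_le_mul_of_nonneg_left (by linarith only [hi1]) (by positivity)
      linarith only [h1]
    have hγ1 : iβ ≤ iα + cc := by
      have h1 : (iβ : ℝ) ≤ iα + cc := by
        rw [hβr, hαr]
        have h2 := mul_le_mul_of_nonneg_left c5 hNfr.le
        linarith only [h2, c1]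
      exact_mod_cast h1
    have hγ2 : iα + cc ≤ Nf * Tn := by
      have h1 : ((iα + cc : ℕ) : ℝ) ≤ ((Nf * Tn : ℕ) : ℝ) := by
        push_cast
        rw [hαr]
        have h2 := HN.TA j hj i hia
        rw [← hRj] at h2
        have h3 := mul_le_mul_of_nonneg_left h2 hNfr.le
        have h4 : 0 ≤ (τ (j + 1) : ℝ) * Nf := by positivity
        have h5 : (1 : ℝ) ≤ Nf := by exact_mod_cast hNf
        linarith only [h3, h4, h5, c2]
      exact_mod_cast h1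
    have hov : bxg t q R₁ ((Nf * Tn) ^ n) (l + (iα + cc) * u) - v = cc * (lam / Nf) * q := by
      rw [hvB]
      unfold bxg
      rw [hpt, hpt]
      push_cast
      ring
    obtain ⟨Yy, hYy⟩ : ∃ Yy, Yy = ((a - i) * cc - Nf * (a * Rj)) / Nf := ⟨_, rfl⟩
    have y1 : 0 ≤ Yy := by
      rw [hYy]
      exact div_nonneg (by linarith only [c3]) hNfr.le
    have y2 : Yy ≤ (a - i) / Nf := by
      rw [hYy]
      exact div_le_div_of_nonneg_right (by linarith only [c4]) hNfr.le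
    have hi0 : (0 : ℝ) ≤ i := Nat.cast_nonneg i
    have y3 : Yy ≤ a / Nf := y2.trans (div_le_div_of_nonneg_right (by linarith only [hi0]) hNfr.le)
    have y4 : a / Nf ≤ b / Nf := div_le_div_of_nonneg_right hab.le hNfr.le
    have hjb : (j' : ℝ) = i * b / a := by
      rw [hij]
      field_simp
    refine ⟨bxg t q R₁ ((Nf * Tn) ^ n) (l + (iα + cc) * u), ?_, ?_, ?_, ?_⟩
    · rw [hwB]
      unfold bxg
      rw [hpt, hpt]
      have h1 : (iβ : ℝ) ≤ ((iα + cc : ℕ) : ℝ) := by exact_mod_cast hγ1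
      have h2 : (iβ : ℝ) * (lam / Nf) ≤ ((iα + cc : ℕ) : ℝ) * (lam / Nf) :=
        mul_le_mul_of_nonneg_right h1 (by positivity)
      have h3 := mul_le_mul_of_nonneg_right h2 hq.le
      linarith only [h3]
    · rw [hov]
      have e1 : (a - i) * ((cc : ℝ) * (lam / Nf) * q) - a * (Rj * (lam * q)) =
          Yy * (lam * q) := by
        rw [hYy]
        field_simp
      rw [e1, abs_of_nonneg (mul_nonneg y1 hlq.le)]
      have h1 := mul_le_mul_of_nonneg_right (y3.trans y4) hlq.le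
      rwa [div_mul_eq_mul_div] at h1
    · rw [hov]
      have e1 : (b - j') * ((cc : ℝ) * (lam / Nf) * q) - b * (Rj * (lam * q)) =
          b / a * Yy * (lam * q) := by
        rw [hYy, hjb]
        field_simp
      rw [e1, abs_of_nonneg (mul_nonneg (mul_nonneg hba.le y1) hlq.le)]
      have h1 : b / a * Yy ≤ b / Nf := by
        have h2 := mul_le_mul_of_nonneg_left y3 hba.le
        have h3 : b / a * (a / Nf) = b / Nf := by field_simp
        linarith only [h2, h3]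
      rw [show b * (lam * q) / (Nf : ℝ) = b / Nf * (lam * q) by ring]
      exact mul_le_mul_of_nonneg_right h1 hlq.le
    · exact (HBq iα iβ (iα + cc) hαβ hγ1 hγ2 g₁ v (t + y * q) _ rfl hvB hwB rfl i j' hij).1 hia.le
  · -- `i = a`
    intro i _ hi2 _ j' _ _ _ hij hia
    have hj00 : j = 0 := by
      rcases Nat.eq_zero_or_pos j with h1 | h1
      · exact h1
      · exact absurd hi2 (not_le.2 (by rw [hia]; exact hxj.2 h1))
    have hR00 : stR a x (fun i => (τ i : ℝ)) 0 = Rj := by rw [hRj, hj00]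
    refine ⟨a * Rj / Tn / ((Nf * Tn : ℕ) : ℝ) ^ s * q, b * Rj / Tn / ((Nf * Tn : ℕ) : ℝ) ^ s * q,
      ?_, ?_, ?_⟩
    · have e1 : a * Rj / Tn / ((Nf * Tn : ℕ) : ℝ) ^ s * q = a * (Rj * (lam * q)) := by
        rw [hlam]
        field_simp
      rw [e1, sub_self, abs_zero]
      exact hρ0
    · have e1 : b * Rj / Tn / ((Nf * Tn : ℕ) : ℝ) ^ s * q = b * (Rj * (lam * q)) := by
        rw [hlam]
        field_simp
      rw [e1, sub_self, abs_zero]
      exact hρ0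
    · have h1 := (HBq iα iβ iβ hαβ le_rfl hβM g₁ v (t + y * q) _ rfl hvB hwB rfl i j' hij).2 hia
      rwa [hR00] at h1
  · rw [hk1]
    have h1 := mul_le_mul_of_nonneg_right E1 hlq.le
    linarith only [h1]
  · have h1 := mul_le_mul_of_nonneg_right (F2.trans hδl) hq.le
    linarith only [h1]
  · linarith only [hρδ, he₀, E3q, heq, mul_pos hδR hlq]
  · rw [← mul_div_assoc, div_le_iff₀ hlam0]
    have h3 : 0 ≤ (r : ℝ) * φ := mul_nonneg hr0 hφ0.le
    linarith only [F2, hδl, h3, hφ0]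
  · linarith only [hρ8, he₀, q1, q2, hφq, heq]

end

end Pool.PN18
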